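import Pool.Agent.H72.Br.Main

/-!
# Generalized Brauer-Severi varieties of algebras whose degree is not a prime power

Let `A`, `B` be central simple algebras of degree `n` over a field `k` which generate the same
subgroup of the Brauer group of `k`. If `n` is not a power of a prime then `SB_m(A)` and `SB_m(B)`
have the same function field, so they are birational, for all `1 ≤ m < n`.

Sketch of the proof. Let `A = P ⊗ Q` with `P` of degree `d`, `Q` of degree `e`, `d` and `e` coprime. A
right ideal `I` of `A` of reduced dimension `m` is sent to the right ideal of all `τ(x)`, `x ∈ I` with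
`τ(a_j x) = 0` for `1 ≤ j ≤ r`, where `τ : P ⊗ Q → Q` is given by a linear form on `P` and the `a_j`
are general elements of `A`. This is a rational map from `SB_m(A)` to `SB_κ(Q)`, `κ = m d - r e`. Over
the generic point of `SB_κ(Q)` the fibre is the product of an affine space and of `SB_m` of an
algebra Brauer equivalent to `A`, and the index of `Q` is `gcd(κ, e) = gcd(m, e)` there. It follows
that `SB_m(A)` is birational to the product of `SB_{gcd(m, d)}(P)`, `SB_{gcd(m, e)}(Q)` and an affine
space, which is large enough for the known stable birationality to be used for `P` and for `Q`.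
-/

open Module Pool.Agent.H72.SB

universe u

namespace Pool.Agent.Results.MP_86d9aa_ag.NotPrimePower

/-- `SB_m(A)` and `SB_m(B)` are birational: they have a common function field, and a field is the
function field of one of them if and only if it is the function field of the other. -/
def SameFunctionField {k : Type u} [Field k] (A B : CSA.{u, u} k) (m : ℕ) : Prop :=
  (∃ (F : Type u) (_ : Field F) (_ : Algebra k F), IsFunctionField A m F ∧
    IsFunctionField B m F) ∧
  ∀ (F : Type u) [Field F] [Algebra k F], IsFunctionField A m F ↔ IsFunctionField B m F

theorem result {k : Type u} [Field k] (A B : CSA.{u, u} k) (n m : ℕ) (hn : ¬ IsPrimePow n)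
    (hA : finrank k A = n ^ 2) (hB : finrank k B = n ^ 2) (hAB : InCyclic A B)
    (hBA : InCyclic B A) (hm : 1 ≤ m) (hmn : m < n) : SameFunctionField A B m :=
  Pool.Agent.H72.Br.same_iff_not_primePow hA hB hn hm hmn hAB hBA

end Pool.Agent.Results.MP_86d9aa_ag.NotPrimePower
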