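import Pool.Agent.H78.TT.StepG

/-!
# Generalized Brauer-Severi varieties in odd degree

Let `A`, `B` be central simple algebras of odd degree `n` over a field `k` with `[B] = i [A]` in the
Brauer group, `i = ± 2 ^ e` modulo `n`, let `1 ≤ m < n` and let `g = gcd(m, n)` divide `i - 1` or
`i + 1`. Then `SB_m(A)` and `SB_m(B)` have the same function field, so they are birational. In
particular this holds for `n = 3 ^ a` and `m` not divisible by `9` whenever `A` and `B` generate the
same subgroup of the Brauer group.

Sketch of the proof. By `functionField_gcd` and duality let `m = g` divide `i - 1`. Let `Ω` be large,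
`θ_i` the eigenvalues of a separable element of degree `n` of `A`, so that `A` consists of the
matrices `(P(θ_i, θ_j) v_ij)`, `P` over `k`. For `s` in `ℤ` the matrices `(P(θ_i, θ_j) v_ij ^ s)` are
the algebra of degree `n` with the class `s [A]`. To a subspace `W` of `Ωⁿ` of dimension `g` with the
Plücker coordinates `p` one attaches
`e_ij = ∑ f(x, j) p(x, i) / p(x, j)`, the sum over all `(g - 1)`-tuples `x` of indices. Let `K₀` be the
field of definition of `e_ij e_jl / e_il`. Then `W` is rational over `K` if and only if `K₀ ≤ K` and
the line of the vector `1` is rational over `K` for the weights `v / e`. Over `K₀` Tregub's map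
(`w' ∘ (a w) = aᵀ (w' ∘ w)`), repeated `e` times, moves this line to the line of a vector `t'`, rational
for the weights `(v / e) ^ i`. There is a line of a vector `μ` which is rational over `K₀` for the
weights `e ^ g`. So `μ ^ c ∘ t' ∘ W`, `i = 1 + g c`, is a subspace which is rational for the weights
`v ^ i` over the same fields.
-/

open Module Pool.Agent.H72.SB Pool.Agent.H49.Cyc

universe u

namespace Pool.Agent.Results.MP_86d9aa_ag.OddDegree

/-- `SB_m(A)` and `SB_m(B)` are birational: they have a common function field, and a field is the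
function field of one of them if and only if it is the function field of the other. -/
def SameFunctionField {k : Type u} [Field k] (A B : CSA.{u, u} k) (m : ℕ) : Prop :=
  (∃ (F : Type u) (_ : Field F) (_ : Algebra k F), IsFunctionField A m F ∧
    IsFunctionField B m F) ∧
  ∀ (F : Type u) [Field F] [Algebra k F], IsFunctionField A m F ↔ IsFunctionField B m F

theorem result {k : Type u} [Field k] (A B : CSA.{u, u} k) (n m : ℕ)
    (hA : finrank k A = n ^ 2) (hB : finrank k B = n ^ 2) (hm : 1 ≤ m) (hmn : m < n) :
    (∀ (i : ℤ) (e : ℕ), Odd n → IsMultiple A i B →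
      ((n : ℤ) ∣ i - 2 ^ e ∨ (n : ℤ) ∣ i + 2 ^ e) →
      ((Nat.gcd m n : ℤ) ∣ i - 1 ∨ (Nat.gcd m n : ℤ) ∣ i + 1) → SameFunctionField A B m) ∧
    (∀ a : ℕ, n = 3 ^ a → ¬ 9 ∣ m → InCyclic A B → InCyclic B A → SameFunctionField A B m) := by
  refine ⟨fun i e hn hAB he hg => Pool.Agent.H78.TT.same_iff_G hA hB hn hm hmn hAB hg e he, ?_⟩
  intro a ha h9 hAB hBA
  rw [ha] at hA hB hmn
  exact Pool.Agent.H78.TT.same_iff_threeG hA hB hm hmn h9 hAB hBA

end Pool.Agent.Results.MP_86d9aa_ag.OddDegree
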