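import Pool.Agent.H49.GSB.Final

/-!
# Generalized Brauer-Severi varieties of algebras which generate the same subgroup

Let `A`, `B` be central simple `k`-algebras of degree `n` which generate the same cyclic subgroup of
the Brauer group, and let `g = gcd(m, n)`. If `A` is not a division algebra, or if `m` and `n - m` are
at least `3 g` (that is, `m` is not `g`, `2 g`, `n - 2 g` or `n - g`), then `SB_m(A)` and `SB_m(B)`
have the same function field, so they are birational.
-/

open Module

universe u

open Pool.Agent.H72.SB in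
theorem Pool.Agent.Results.MP_86d9aa_ag.SubgroupBirational.result {k : Type u} [Field k]
    (A B : CSA.{u, u} k) (n m : ℕ) (hA : finrank k A = n ^ 2) (hB : finrank k B = n ^ 2)
    (hm : 1 ≤ m) (hmn : m < n) (hAB : InCyclic A B) (hBA : InCyclic B A)
    (h : (∃ x : A, x ≠ 0 ∧ ¬ IsUnit x) ∨ (3 * Nat.gcd m n ≤ m ∧ 3 * Nat.gcd m n ≤ n - m)) :
    (∃ (F : Type u) (_ : Field F) (_ : Algebra k F), IsFunctionField A m F ∧
      IsFunctionField B m F) ∧
    ∀ (F : Type u) [Field F] [Algebra k F], IsFunctionField A m F ↔ IsFunctionField B m F :=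
  Pool.Agent.H49.GSB.same_iff hA hB hm hmn hAB hBA h
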