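import Pool.Agent.H20.SXA.End

/-!
# Generalized Brauer-Severi varieties of algebras with a tower of subfields

Let `A`, `B` be central simple algebras of degree `n` over a field `k` with `[B] = i [A]` and
`[A] = j [B]`. A number is called good if it is `1`, `2`, `3`, `4` or `6` or divides `i - 1` or `i + 1`.
Let `A` contain a field `E`, separable over `k`, such that `n / [E : k]` is good and there is a chain of
fields from `k` to `E` in which every step is a Galois extension with a solvable group or has a good
degree. If `1 ≤ m < n` and `gcd(m, n)` is good then `SB_m(A)` and `SB_m(B)` have the same function field,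
so they are birational.
-/

open Module Pool.Agent.H72.SB Pool.Agent.H49.Cyc

universe u

namespace Pool.Agent.Results.MP_86d9aa_ag.Towers

/-- `x` is `1`, `2`, `3`, `4` or `6`, or divides `i - 1` or `i + 1`. -/
def IsGood (i : ℤ) (x : ℕ) : Prop :=
  (x = 1 ∨ x = 2 ∨ x = 3 ∨ x = 4 ∨ x = 6) ∨ (x : ℤ) ∣ i - 1 ∨ (x : ℤ) ∣ i + 1

/-- There is a chain of fields `k = F 0 ≤ F 1 ≤ … ≤ F r = E` such that every `F (j + 1)` is a Galois
extension of `F j` with a solvable group or has a good degree over `F j`. -/
def IsTower (k E : Type u) [Field k] [Field E] [Algebra k E] (i : ℤ) : Prop :=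
  ∃ (r : ℕ) (F : ℕ → IntermediateField k E), F 0 = ⊥ ∧ F r = ⊤ ∧
    ∀ j < r, ∃ h : F j ≤ F (j + 1), (IsGalois (F j) (IntermediateField.extendScalars h) ∧
      Group.IsSolvable
        (IntermediateField.extendScalars h ≃ₐ[F j] IntermediateField.extendScalars h)) ∨
      IsGood i (finrank (F j) (IntermediateField.extendScalars h))

/-- The algebra `A` of degree `n` contains a separable field extension `E` of `k` with a tower, such
that `n / [E : k]` is good. -/
def ContainsTower {k : Type u} [Field k] (A : CSA.{u, u} k) (n : ℕ) (i : ℤ) : Prop :=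
  ∃ (E : Type u) (_ : Field E) (_ : Algebra k E) (d : ℕ), Algebra.IsSeparable k E ∧
    IsTower k E i ∧ n = d * finrank k E ∧ IsGood i d ∧ Nonempty (E →ₐ[k] A)

/-- `SB_m(A)` and `SB_m(B)` are birational: they have a common function field, and a field is the
function field of one of them if and only if it is the function field of the other. -/
def SameFunctionField {k : Type u} [Field k] (A B : CSA.{u, u} k) (m : ℕ) : Prop :=
  (∃ (F : Type u) (_ : Field F) (_ : Algebra k F), IsFunctionField A m F ∧
    IsFunctionField B m F) ∧
  ∀ (F : Type u) [Field F] [Algebra k F], IsFunctionField A m F ↔ IsFunctionField B m F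

theorem result {k : Type u} [Field k] (A B : CSA.{u, u} k) (n m : ℕ) (i j : ℤ)
    (hA : finrank k A = n ^ 2) (hB : finrank k B = n ^ 2) (hAB : IsMultiple A i B)
    (hBA : IsMultiple B j A) (hT : ContainsTower A n i) (hm : 1 ≤ m) (hmn : m < n)
    (hg : IsGood i (Nat.gcd m n)) : SameFunctionField A B m := by
  obtain ⟨E, _, _, d, hsep, hT, hn, hd, ⟨φ⟩⟩ := hT
  exact Pool.Agent.H20.SXA.same_iff_contains hA hB hn hT φ hd hAB hBA hm hmn hg

end Pool.Agent.Results.MP_86d9aa_ag.Towers
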